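import Pool.Agent.Lib.helper3.PPP

namespace Pool.Agent.H.MP_2c66a4_pr

open MeasureTheory ProbabilityTheory Filter Topology Set Pool.Agent.Lib.helper3.PPP
open scoped ENNReal

lemma ig (a : ℝ) : Integrable fun y : ℝ => Complex.exp ((a / y ^ 15 : ℝ) * Complex.I) - 1 := by
  refine (integrable_inv_one_add_sq.const_mul (4 + 2 * |a|)).mono'
    (Measurable.aestronglyMeasurable (by fun_prop)) (.of_forall fun y => ?_)
  rw [← div_eq_mul_inv, le_div_iff₀ (by positivity)]
  have a0 := abs_nonneg a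
  rcases le_total |y| 1 with h | h
  · have : ‖Complex.exp ((a / y ^ 15 : ℝ) * Complex.I) - 1‖ ≤ 2 :=
      (norm_sub_le _ _).trans (by rw [Complex.norm_exp_ofReal_mul_I]; norm_num)
    have : y ^ 2 ≤ 1 := by rwa [sq_le_one_iff_abs_le_one]
    nlinarith [norm_nonneg (Complex.exp ((a / y ^ 15 : ℝ) * Complex.I) - 1)]
  · have e := Real.norm_exp_I_mul_ofReal_sub_one_le (x := a / y ^ 15)
    rw [mul_comm, Real.norm_eq_abs, abs_div, abs_pow] at e
    have y1 : 1 ≤ y ^ 2 := by rw [← sq_abs]; exact one_le_pow₀ h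
    have : |a| / |y| ^ 15 ≤ |a| / y ^ 2 := by
      rw [← sq_abs y]; gcongr; norm_num
    have k := (le_div_iff₀ (by positivity)).1 (e.trans this)
    nlinarith [norm_nonneg (Complex.exp ((a / y ^ 15 : ℝ) * Complex.I) - 1)]

noncomputable def κ : ℝ := ∫ y : ℝ, (1 - Real.cos (1 / y ^ 15))

lemma κ0 : 0 < κ := by
  have i : Integrable fun y : ℝ => 1 - Real.cos (1 / y ^ 15) := by
    refine (ig 1).re.neg.congr (.of_forall fun y => ?_)
    simp only [Pi.neg_apply, map_sub, RCLike.re_to_complex, Complex.exp_ofReal_mul_I_re, Complex.one_re, neg_sub]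
  refine (integral_pos_iff_support_of_nonneg (fun y => sub_nonneg.2 (Real.cos_le_one _)) i).2
    (lt_of_lt_of_le (by simp) (measure_mono (s := Ioo 1 2) fun y hy => ?_))
  have y1 : 1 < y ^ 15 := one_lt_pow₀ hy.1 (by norm_num)
  have := Real.cos_lt_cos_of_nonneg_of_le_pi (x := 0) (y := 1 / y ^ 15) le_rfl
    (by have := Real.pi_gt_three; have := (div_lt_one (by linarith)).2 y1; linarith) (by positivity)
  rw [Real.cos_zero] at this
  exact (sub_pos.2 this).ne'

lemma ψ (a : ℝ) : ∫ y : ℝ, (Complex.exp ((a / y ^ 15 : ℝ) * Complex.I) - 1) =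
    (-(|a| ^ (1 / 15 : ℝ) * κ) : ℝ) := by
  have e1 : ∫ y : ℝ, (Complex.exp ((a / y ^ 15 : ℝ) * Complex.I) - 1) =
      ((∫ y : ℝ, (Real.cos (a / y ^ 15) - 1) : ℝ) : ℂ) := by
    have s := integral_neg_eq_self (fun y : ℝ => Complex.exp ((a / y ^ 15 : ℝ) * Complex.I) - 1) volume
    have t := integral_add (ig a).comp_neg (ig a)
    rw [s, ← two_mul] at t
    rw [← integral_complex_ofReal, ← mul_right_inj' (two_ne_zero' ℂ), ← t, ← integral_const_mul]
    refine integral_congr_ae (.of_forall fun y => ?_)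
    simp only [Odd.neg_pow (show Odd 15 by decide), div_neg]
    push_cast
    rw [Complex.cos, neg_mul]
    ring
  rw [e1]
  congr 1
  rcases eq_or_ne a 0 with rfl | a0
  · simp
  have p : 0 < |a| ^ (1 / 15 : ℝ) := by positivity
  have q : (|a| ^ (1 / 15 : ℝ)) ^ 15 = |a| := by
    rw [← Real.rpow_natCast, ← Real.rpow_mul (abs_nonneg a)]; norm_num
  generalize |a| ^ (1 / 15 : ℝ) = l at *
  have := Measure.integral_comp_mul_left (fun y : ℝ => 1 - Real.cos (1 / y ^ 15)) l⁻¹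
  rw [inv_inv, abs_of_pos p, smul_eq_mul, ← κ] at this
  rw [← this, ← integral_neg]
  refine integral_congr_ae (.of_forall fun y => ?_)
  simp only [neg_sub, mul_pow, inv_pow, q]
  rw [← Real.cos_abs (a / y ^ 15), ← Real.cos_abs (1 / _)]
  simp [abs_mul, div_eq_mul_inv, mul_comm]

noncomputable def c : ℝ := (κ ^ 15)⁻¹

lemma c0 : 0 < c := by have := κ0; unfold c; positivity

lemma ψ' (ξ : ℝ) : ∫ y : ℝ, (Complex.exp ((ξ * c / y ^ 15 : ℝ) * Complex.I) - 1) =
    (-|ξ| ^ (1 / 15 : ℝ) : ℝ) := by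
  have k := κ0
  rw [ψ, abs_mul, Real.mul_rpow (abs_nonneg _) (abs_nonneg _), abs_of_pos c0, c,
    Real.inv_rpow (by positivity), ← Real.rpow_natCast, ← Real.rpow_mul k.le]
  congr 2
  norm_num
  field_simp

noncomputable def F (s t : ℝ) (p : ℝ × ℝ) : ℝ := if s < p.1 ∧ p.1 ≤ t then c / p.2 ^ 15 else 0

lemma mF (s t : ℝ) : Measurable (F s t) :=
  Measurable.ite ((measurableSet_lt measurable_const measurable_fst).inter
    (measurableSet_le measurable_fst measurable_const)) (by fun_prop) measurable_const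

noncomputable def X (t : ℝ) : Ω → ℝ := S (F 0 t)

noncomputable def w (d : ℤ × ℤ) : ℝ := (1 + (d.1 : ℝ) ^ 2)⁻¹ * (1 + (d.2 : ℝ) ^ 2)⁻¹

def Good (ω : Ω) : Prop := (∀ d j, (ω d).2 j ∈ cell d) ∧ Summable fun d => ((ω d).1 : ℝ) * w d

lemma w0 (d : ℤ × ℤ) : 0 < w d := by unfold w; positivity

lemma good : ∀ᵐ ω ∂P, Good ω := by
  have s : Summable fun n : ℤ => (1 + (n : ℝ) ^ 2)⁻¹ := by
    refine .of_norm_bounded_eventually (Real.summable_one_div_int_pow.2 one_lt_two) ?_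
    filter_upwards [eventually_cofinite_ne 0] with n hn
    have : (n : ℝ) ≠ 0 := by exact_mod_cast hn
    rw [Real.norm_of_nonneg (by positivity), one_div]
    exact inv_anti₀ (by positivity) (by linarith)
  exact ae_cell.and (ae_sum (fun d => (w0 d).le)
    (s.mul_of_nonneg s (fun _ => by positivity) fun _ => by positivity))

noncomputable def D (K : ℕ) (T : ℝ) : Finset (ℤ × ℤ) := Finset.Icc 0 ⌈T⌉ ×ˢ Finset.Ico (-K : ℤ) K

lemma tailb {ω : Ω} (g : Good ω) {K : ℕ} (K1 : 1 ≤ K) (T : ℝ) {d : ℤ × ℤ} (hd : d ∉ D K T) :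
    Z (fun p => |F 0 T p|) (ω d) ≤ 5 * c * (1 + T ^ 2) / K ^ 13 * (((ω d).1 : ℝ) * w d) := by
  have c0 := c0
  have w0 := w0 d
  have K1 : (1 : ℝ) ≤ K := by exact_mod_cast K1
  refine (Finset.sum_le_card_nsmul _ _ (5 * c * (1 + T ^ 2) / K ^ 13 * w d) fun j _ => ?_).trans_eq
    (by rw [Finset.card_range, nsmul_eq_mul]; ring)
  obtain ⟨⟨a1, a2⟩, b1, b2⟩ := g.1 d j
  simp only [F]
  generalize (ω d).2 j = p at *
  split_ifs with h
  swap
  · rw [abs_zero]; positivity
  have d0 : 0 ≤ d.1 := by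
    have : ((-1 : ℤ) : ℝ) < d.1 := by push_cast; linarith [h.1]
    have := Int.cast_lt.1 this; omega
  have d0' : (0 : ℝ) ≤ d.1 := by exact_mod_cast d0
  have d1 : d.1 ≤ ⌈T⌉ := Int.cast_le (R := ℝ).1 (by linarith [h.2, Int.le_ceil T])
  have yK : (K : ℝ) ≤ |p.2| ∧ 1 + (d.2 : ℝ) ^ 2 ≤ 5 * |p.2| ^ 2 := by
    simp only [D, Finset.mem_product, Finset.mem_Icc, d0, d1, true_and, Finset.mem_Ico, not_and_or,
      not_le, not_lt] at hd
    rw [sq_abs]
    rcases hd with hd | hd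
    · have : (d.2 : ℝ) + 1 ≤ -K := by exact_mod_cast hd
      exact ⟨le_abs.2 (.inr (by linarith)), by nlinarith⟩
    · have : (K : ℝ) ≤ d.2 := by exact_mod_cast hd
      exact ⟨le_abs.2 (.inl (by linarith)), by nlinarith⟩
  obtain ⟨y1, y2⟩ := yK
  rw [abs_div, abs_pow, abs_of_pos c0, w]
  have : 1 + (d.1 : ℝ) ^ 2 ≤ 1 + T ^ 2 := by nlinarith [h.2]
  calc c / |p.2| ^ 15 = 5 * c / |p.2| ^ 13 * (5 * |p.2| ^ 2)⁻¹ := by
        have : 0 < |p.2| := by linarith
        field_simp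
    _ ≤ 5 * c / K ^ 13 * (1 + (d.2 : ℝ) ^ 2)⁻¹ := by gcongr
    _ = 5 * c * (1 + (d.1 : ℝ) ^ 2) / K ^ 13 * ((1 + (d.1 : ℝ) ^ 2)⁻¹ * (1 + (d.2 : ℝ) ^ 2)⁻¹) := by
        field_simp
    _ ≤ _ := by gcongr

lemma sb {ω : Ω} (g : Good ω) (T : ℝ) : Summable fun d => Z (fun p => |F 0 T p|) (ω d) := by
  refine .of_norm_bounded_eventually (g.2.mul_left (5 * c * (1 + T ^ 2) / (1 : ℕ) ^ 13)) ?_
  filter_upwards [(D 1 T).eventually_cofinite_notMem] with d hd
  exact (Real.norm_of_nonneg (Finset.sum_nonneg fun _ _ => abs_nonneg _)).trans_le (tailb g le_rfl T hd)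

lemma Zle {G : ℝ × ℝ → ℝ} {T A : ℝ} (h : ∀ p, |G p| ≤ A * |F 0 T p|) (x : C) :
    ‖Z G x‖ ≤ A * Z (fun p => |F 0 T p|) x := by
  rw [Z, Z, Finset.mul_sum]
  exact (Finset.abs_sum_le_sum_abs _ _).trans (Finset.sum_le_sum fun j _ => h _)

lemma sG {ω : Ω} (g : Good ω) {G : ℝ × ℝ → ℝ} {T A : ℝ} (h : ∀ p, |G p| ≤ A * |F 0 T p|) :
    Summable fun d => Z G (ω d) := .of_norm_bounded ((sb g T).mul_left A) fun _ => Zle h _

lemma Fle {s t T : ℝ} (s0 : 0 ≤ s) (tT : t ≤ T) (p : ℝ × ℝ) : |F s t p| ≤ 1 * |F 0 T p| := by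
  rw [one_mul]
  unfold F
  split_ifs with h k
  · rfl
  · exact absurd ⟨s0.trans_lt h.1, h.2.trans tT⟩ k
  · rw [abs_zero]; positivity
  · rfl

lemma inc {ω : Ω} (g : Good ω) {s t : ℝ} (s0 : 0 ≤ s) (st : s ≤ t) : X t ω - X s ω = S (F s t) ω := by
  rw [X, X, S, S, S, ← (sG g (Fle le_rfl le_rfl)).tsum_sub (sG g (Fle le_rfl le_rfl))]
  refine tsum_congr fun d => ?_
  rw [Z, Z, Z, ← Finset.sum_sub_distrib]
  refine Finset.sum_congr rfl fun j _ => ?_
  unfold F
  generalize (ω d).2 j = p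
  split_ifs with a b e <;> first | (simp; done) | (exfalso; grind)

lemma cad {ω : Ω} (g : Good ω) (t : ℝ) : ContinuousWithinAt (fun s => X s ω) (Ici t) t ∧
    ∃ l : ℝ, Tendsto (fun s => X s ω) (𝓝[<] t) (𝓝 l) := by
  have b : ∀ s ≤ t + 1, ∀ d, ‖Z (F 0 s) (ω d)‖ ≤ 1 * Z (fun p => |F 0 (t + 1) p|) (ω d) :=
    fun s hs d => Zle (Fle le_rfl hs) _
  constructor
  · refine tendsto_tsum_of_dominated_convergence ((sb g (t + 1)).mul_left 1) (fun d => ?_) ?_
    · refine tendsto_finsetSum _ fun j _ => tendsto_const_nhds.congr' ?_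
      generalize (ω d).2 j = p
      rcases le_or_gt p.1 t with h | h
      · filter_upwards [self_mem_nhdsWithin] with s hs
        simp only [F, h, h.trans hs]
      · filter_upwards [Ico_mem_nhdsGE h] with s hs
        simp only [F, h.not_ge, hs.2.not_ge]
    · filter_upwards [Ico_mem_nhdsGE (lt_add_one t)] with s hs using b s hs.2.le
  · refine ⟨_, tendsto_tsum_of_dominated_convergence ((sb g (t + 1)).mul_left 1)
      (g := fun d => Z (fun p => if 0 < p.1 ∧ p.1 < t then c / p.2 ^ 15 else 0) (ω d)) (fun d => ?_) ?_⟩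
    · refine tendsto_finsetSum _ fun j _ => tendsto_const_nhds.congr' ?_
      generalize (ω d).2 j = p
      rcases lt_or_ge p.1 t with h | h
      · filter_upwards [Ioo_mem_nhdsLT h] with s hs
        simp only [F, h, hs.1.le]
      · filter_upwards [self_mem_nhdsWithin] with s hs
        simp only [F, h.not_gt, (lt_of_lt_of_le hs h).not_ge]
    · filter_upwards [self_mem_nhdsWithin] with s hs using b s (by linarith [mem_Iio.1 hs])

lemma joint {n : ℕ} (a b ξ : Fin n → ℝ) (a0 : ∀ i, 0 ≤ a i) (ab : ∀ i, a i ≤ b i)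
    (dj : ∀ i j, i < j → b i ≤ a j) :
    ∫ ω, Complex.exp ((∑ i, ξ i * (X (b i) ω - X (a i) ω) : ℝ) * Complex.I) ∂P =
      ∏ i, ((Real.exp (-(b i - a i) * |ξ i| ^ (1 / 15 : ℝ)) : ℝ) : ℂ) := by
  let G : ℝ × ℝ → ℝ := fun p => ∑ i, ξ i * F (a i) (b i) p
  have mF := mF
  have sF : ∀ ω, Good ω → ∀ i, Summable fun d => ξ i * Z (F (a i) (b i)) (ω d) := fun ω g i =>
    (sG g (Fle (a0 i) le_rfl)).mul_left _
  have zG : ∀ x, Z G x = ∑ i, ξ i * Z (F (a i) (b i)) x := fun x => by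
    simp only [Z, G, Finset.mul_sum]; exact Finset.sum_comm
  have e : ∀ p : ℝ × ℝ, Complex.exp (G p * Complex.I) - 1 = ∑ i, (Ioc (a i) (b i)).indicator (fun _ => (1 : ℂ)) p.1 *
      (Complex.exp ((ξ i * c / p.2 ^ 15 : ℝ) * Complex.I) - 1) := fun p => by
    by_cases h : ∃ i, a i < p.1 ∧ p.1 ≤ b i
    · obtain ⟨i, hi⟩ := h
      have o : ∀ j ≠ i, ¬ (a j < p.1 ∧ p.1 ≤ b j) := fun j hj k => by
        rcases lt_or_gt_of_ne hj with l | l
        · linarith [dj _ _ l, k.2, hi.1]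
        · linarith [dj _ _ l, k.1, hi.2]
      simp only [G]
      rw [Finset.sum_eq_single i (fun j _ hj => by simp only [F, if_neg (o j hj), mul_zero]) (by simp),
        Finset.sum_eq_single i (fun j _ hj => by rw [indicator_of_notMem (s := Ioc _ _) (o j hj), zero_mul]) (by simp),
        indicator_of_mem (s := Ioc _ _) hi, one_mul, F, if_pos hi, mul_div_assoc]
    · rw [not_exists] at h
      simp only [G, F, if_neg (h _), mul_zero, indicator_of_notMem (s := Ioc _ _) (h _)]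
      simp
  have i1 : ∀ i, Integrable ((Ioc (a i) (b i)).indicator fun _ : ℝ => (1 : ℂ)) := fun i =>
    (integrable_indicator_iff measurableSet_Ioc).2 (by simp)
  have i2 : ∀ i, Integrable fun p : ℝ × ℝ => (Ioc (a i) (b i)).indicator (fun _ => (1 : ℂ)) p.1 *
      (Complex.exp ((ξ i * c / p.2 ^ 15 : ℝ) * Complex.I) - 1) := fun i => (i1 i).mul_prod (ig _)
  have := campbell (F := G) (by fun_prop) (good.mono fun ω g => by
    simp_rw [zG]; exact summable_sum fun i _ => sF ω g i) (by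
    simp_rw [e]; exact integrable_finsetSum _ fun i _ => i2 i)
  simp_rw [e] at this
  rw [integral_finsetSum _ fun i _ => i2 i, Complex.exp_sum] at this
  refine (integral_congr_ae (good.mono fun ω g => ?_)).trans (this.trans
    (Finset.prod_congr rfl fun i _ => ?_))
  · simp only [S, zG]
    rw [Summable.tsum_finsetSum fun i _ => sF ω g i]
    simp_rw [tsum_mul_left, inc g (a0 _) (ab _), S]
  · rw [Measure.volume_eq_prod, integral_prod_mul (f := (Ioc (a i) (b i)).indicator fun _ : ℝ => (1 : ℂ))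
      (g := fun y : ℝ => Complex.exp ((ξ i * c / y ^ 15 : ℝ) * Complex.I) - 1), ψ',
      integral_indicator measurableSet_Ioc]
    simp [ab i]
    congr 1; ring

lemma fro (μ : Measure (ℝ × ℝ)) [IsProbabilityMeasure μ] {C r δ : ℝ} (C0 : 0 ≤ C) (r0 : 0 < r) (rδ : r ≤ δ)
    (h : ∀ η : ℝ, 1 ≤ |η| → ‖∫ p, Complex.exp ((η * p.2 : ℝ) * Complex.I) ∂μ‖ ≤ C * |η| ^ (-(1 / 3) : ℝ))
    (a : ℝ) : μ.real {p | |p.2 - a| ≤ r} ≤ 2 * (2 * δ + C * (r / δ) ^ (1 / 3 : ℝ)) := by
  have δ0 : 0 < δ := r0.trans_le rδ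
  let γ := gaussianReal 0 1
  let f : ℝ × ℝ → ℝ → ℂ := fun p η => Complex.exp (((p.2 - a) / r : ℝ) * η * Complex.I)
  have n1 : ∀ p η, ‖f p η‖ = 1 := fun p η => by
    simp only [f]; rw [← Complex.ofReal_mul, Complex.norm_exp_ofReal_mul_I]
  have e1 : ∀ p, ∫ η, f p η ∂γ = (Real.exp (-((p.2 - a) / r) ^ 2 / 2) : ℝ) := fun p => by
    rw [← charFun_apply_real, charFun_gaussianReal]; push_cast; congr 1; simp; ring
  have i : Integrable (Function.uncurry f) (μ.prod γ) :=
    .of_bound (Measurable.aestronglyMeasurable (by fun_prop)) 1 (.of_forall fun p => (n1 _ _).le)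
  have sw := integral_integral_swap i
  simp_rw [e1] at sw
  rw [integral_complex_ofReal] at sw
  have ms : MeasurableSet {p : ℝ × ℝ | |p.2 - a| ≤ r} := measurableSet_le (by fun_prop) measurable_const
  have s1 : μ.real {p | |p.2 - a| ≤ r} ≤ 2 * ∫ p, Real.exp (-((p.2 - a) / r) ^ 2 / 2) ∂μ := by
    rw [← integral_indicator_one ms, ← integral_const_mul]
    refine integral_mono ((integrable_const _).indicator ms) (.const_mul (.of_bound
      (Measurable.aestronglyMeasurable (by fun_prop)) 1 (.of_forall fun p => ?_)) _) fun p => ?_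
    · rw [Real.norm_of_nonneg (Real.exp_pos _).le, Real.exp_le_one_iff]
      linarith [sq_nonneg ((p.2 - a) / r)]
    · refine indicator_apply_le' (fun hp => ?_) fun _ => by positivity
      have : ((p.2 - a) / r) ^ 2 ≤ 1 := by
        rw [sq_le_one_iff_abs_le_one, abs_div, abs_of_pos r0, div_le_one r0]; exact hp
      have := Real.add_one_le_exp (-((p.2 - a) / r) ^ 2 / 2)
      simp only [Pi.one_apply]
      linarith
  have s2 : ∀ η, ‖∫ p, f p η ∂μ‖ ≤ (Ioo (-δ) δ).indicator 1 η + C * (r / δ) ^ (1 / 3 : ℝ) := fun η => by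
    by_cases hη : η ∈ Ioo (-δ) δ
    · rw [indicator_of_mem hη]
      refine (norm_integral_le_of_norm_le_const (.of_forall fun p => (n1 p η).le)).trans ?_
      simp only [probReal_univ, mul_one, Pi.one_apply, le_add_iff_nonneg_right]
      positivity
    · rw [indicator_of_notMem hη, zero_add]
      have : δ ≤ |η| := by
        by_contra k
        exact hη (abs_lt.1 (not_le.1 k))
      have e : ∀ p : ℝ × ℝ, f p η = Complex.exp ((η / r * p.2 : ℝ) * Complex.I) *
          Complex.exp ((-(η / r * a) : ℝ) * Complex.I) := fun p => by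
        simp only [f]; rw [← Complex.exp_add]; congr 1; push_cast; ring
      have k : δ / r ≤ |η / r| := by rw [abs_div, abs_of_pos r0]; gcongr
      simp_rw [e]
      rw [integral_mul_const, norm_mul, Complex.norm_exp_ofReal_mul_I, mul_one]
      refine (h _ (le_trans ((one_le_div r0).2 rδ) k)).trans ?_
      rw [← inv_div δ r, Real.inv_rpow (by positivity), ← Real.rpow_neg (by positivity)]
      gcongr ?_ * ?_
      exact Real.rpow_le_rpow_of_nonpos (by positivity) k (by norm_num)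
  have s3 : γ.real (Ioo (-δ) δ) ≤ 2 * δ := by
    refine ENNReal.toReal_le_of_le_ofReal (by positivity) ?_
    rw [gaussianReal_apply _ one_ne_zero]
    refine (lintegral_mono (g := fun _ => 1) fun x => ?_).trans_eq (by simp [two_mul])
    refine ENNReal.ofReal_le_one.2 (mul_le_one₀ (inv_le_one_of_one_le₀ ?_) (Real.exp_pos _).le ?_)
    · exact Real.one_le_sqrt.2 (by have := Real.pi_gt_three; simp; linarith)
    · rw [Real.exp_le_one_iff]; simp; linarith [sq_nonneg x]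
  have s4 := norm_integral_le_of_norm_le (((integrable_const (μ := γ) (1 : ℝ)).indicator
    (measurableSet_Ioo (a := -δ) (b := δ))).add (integrable_const _)) (.of_forall s2)
  rw [← sw, Complex.norm_real, integral_add' ((integrable_const _).indicator measurableSet_Ioo)
    (integrable_const _), integral_const, integral_indicator_const _ measurableSet_Ioo] at s4
  simp only [probReal_univ, smul_eq_mul, one_mul, mul_one, Real.norm_eq_abs] at s4
  linarith [le_abs_self (∫ p, Real.exp (-((p.2 - a) / r) ^ 2 / 2) ∂μ)]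

lemma cover {ω : Ω} (g : Good ω) {K : ℕ} (K1 : 1 ≤ K) : ∃ V : Finset ℝ,
    (V.card : ℝ) ≤ (1 + 4 * ∑' d, ((ω d).1 : ℝ) * w d) * K ^ 2 ∧ ∀ t ∈ Icc (0 : ℝ) 1, ∃ a ∈ V,
      |X t ω - a| ≤ (10 * c * ∑' d, ((ω d).1 : ℝ) * w d) / K ^ 13 := by
  classical
  let B : ℝ → ℝ := fun t => ∑ d ∈ D K 1, Z (F 0 t) (ω d)
  let I := (D K 1).sigma fun d => Finset.range (ω d).1
  let τ : (Σ _ : ℤ × ℤ, ℕ) → ℝ := fun i => ((ω i.1).2 i.2).1
  have n0 : ∀ d, 0 ≤ ((ω d).1 : ℝ) * w d := fun d => mul_nonneg (Nat.cast_nonneg _) (w0 d).le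
  have K1' : (1 : ℝ) ≤ K := by exact_mod_cast K1
  refine ⟨insert 0 (I.image fun i => B (τ i)), ?_, fun t ht => ⟨B t, ?_, ?_⟩⟩
  · have a : (insert 0 (I.image fun i => B (τ i))).card ≤ ∑ d ∈ D K 1, (ω d).1 + 1 :=
      (Finset.card_insert_le _ _).trans (by
        gcongr; exact Finset.card_image_le.trans (by simp [I]))
    have a : ((insert 0 (I.image fun i => B (τ i))).card : ℝ) ≤ ∑ d ∈ D K 1, ((ω d).1 : ℝ) + 1 := by
      exact_mod_cast a
    have b : ∑ d ∈ D K 1, ((ω d).1 : ℝ) ≤ 4 * K ^ 2 * ∑ d ∈ D K 1, ((ω d).1 : ℝ) * w d := by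
      rw [Finset.mul_sum]
      refine Finset.sum_le_sum fun d hd => ?_
      simp only [D, Int.ceil_one, Finset.mem_product, Finset.mem_Icc, Finset.mem_Ico] at hd
      obtain ⟨⟨h1, h2⟩, h3, h4⟩ := hd
      have h1 : (0 : ℝ) ≤ d.1 := by exact_mod_cast h1
      have h2 : (d.1 : ℝ) ≤ 1 := by exact_mod_cast h2
      have h3 : (-K : ℝ) ≤ d.2 := by exact_mod_cast h3
      have h4 : (d.2 : ℝ) < K := by exact_mod_cast h4
      rw [mul_left_comm]
      refine le_mul_of_one_le_right (Nat.cast_nonneg _) ?_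
      rw [w, ← mul_inv, ← div_eq_mul_inv, one_le_div (by positivity)]
      calc _ ≤ 2 * (2 * (K : ℝ) ^ 2) := by gcongr <;> nlinarith
        _ = _ := by ring
    have c := g.2.sum_le_tsum (D K 1) fun d _ => n0 d
    nlinarith [mul_le_mul_of_nonneg_left c (show (0 : ℝ) ≤ 4 * K ^ 2 by positivity)]
  · rcases (I.filter fun i => 0 < τ i ∧ τ i ≤ t).eq_empty_or_nonempty with h | h
    · refine Finset.mem_insert.2 (.inl (Finset.sum_eq_zero fun d hd => Finset.sum_eq_zero fun j hj => ?_))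
      exact if_neg (Finset.filter_eq_empty_iff.1 h (x := ⟨d, j⟩) (Finset.mem_sigma.2 ⟨hd, hj⟩))
    · obtain ⟨i, hi, hm⟩ := Finset.exists_max_image _ τ h
      rw [Finset.mem_filter] at hi
      refine Finset.mem_insert_of_mem (Finset.mem_image.2 ⟨i, hi.1,
        Finset.sum_congr rfl fun d hd => Finset.sum_congr rfl fun j hj => if_congr ?_ rfl rfl⟩)
      exact ⟨fun k => ⟨k.1, k.2.trans hi.2.2⟩, fun k => ⟨k.1, hm ⟨d, j⟩
        (Finset.mem_filter.2 ⟨Finset.mem_sigma.2 ⟨hd, hj⟩, k⟩)⟩⟩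
  · have s := sG g (Fle (s := 0) le_rfl ht.2)
    have c0 := c0
    rw [X, S, ← s.sum_add_tsum_compl (s := D K 1), add_sub_cancel_left]
    rw [← Real.norm_eq_abs]
    refine (tsum_of_norm_bounded ((g.2.subtype _).mul_left (10 * c / K ^ 13)).hasSum fun d => ?_).trans ?_
    · refine (Zle (Fle le_rfl ht.2) _).trans ?_
      rw [one_mul]
      exact (tailb g K1 1 d.2).trans_eq (by simp only [Function.comp]; ring)
    · rw [tsum_mul_left, mul_div_right_comm (10 * c)]
      exact mul_le_mul_of_nonneg_left (Summable.tsum_subtype_le _ _ n0 g.2) (by positivity)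

lemma nodecay {ω : Ω} (g : Good ω) (μ : Measure (ℝ × ℝ)) [IsProbabilityMeasure μ] {K : Set (ℝ × ℝ)}
    (hK : K ⊆ {p : ℝ × ℝ | p.1 ∈ Icc (0 : ℝ) 1 ∧ p.2 = X p.1 ω}) (h0 : μ Kᶜ = 0) {C : ℝ}
    (h : ∀ η : ℝ, 1 ≤ |η| → ‖∫ p, Complex.exp ((η * p.2 : ℝ) * Complex.I) ∂μ‖ ≤ C * |η| ^ (-(1 / 3) : ℝ)) :
    False := by
  have C0 : 0 ≤ C := by simpa using (norm_nonneg _).trans (h 1 (by simp))
  have c0 := c0
  have s0 : 0 ≤ ∑' d, ((ω d).1 : ℝ) * w d := tsum_nonneg fun d => mul_nonneg (Nat.cast_nonneg _) (w0 d).le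
  have cv := fun K => cover g (K := K)
  generalize ∑' d, ((ω d).1 : ℝ) * w d = s at *
  set A := 10 * c * s + 1 with hA
  have A1 : 1 ≤ A := by have : 0 ≤ 10 * c * s := by positivity
                        linarith
  obtain ⟨N, hN⟩ := exists_nat_gt (A + (1 + 4 * s) * (2 * (2 + C * A)))
  have p : 0 ≤ (1 + 4 * s) * (2 * (2 + C * A)) := by positivity
  have N1 : (1 : ℝ) ≤ N := by linarith
  obtain ⟨V, hV, hX⟩ := cv N (by exact_mod_cast N1)
  have N0 : (0 : ℝ) < N := by linarith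
  have f : ∀ a, μ.real {p | |p.2 - a| ≤ A / N ^ 13} ≤ 2 * (2 + C * A) / N ^ 3 := fun a => by
    refine (fro μ (δ := 1 / N ^ 3) C0 (by positivity) ?_ h a).trans ?_
    · calc A / N ^ 13 ≤ N ^ 10 / N ^ 13 := by
            gcongr; exact le_trans (by linarith) (le_self_pow₀ N1 (by norm_num))
        _ = _ := by field_simp
    · have : (A / N ^ 13 / (1 / N ^ 3)) ^ (1 / 3 : ℝ) ≤ A / N ^ 3 := by
        rw [one_div (3 : ℝ), Real.rpow_inv_le_iff_of_pos (by positivity) (by positivity) (by norm_num),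
          Real.rpow_ofNat]
        calc A / N ^ 13 / (1 / N ^ 3) = A / N ^ 10 := by field_simp
          _ ≤ A ^ 3 / N ^ 9 := by
            gcongr
            · exact le_self_pow₀ A1 (by norm_num)
            · norm_num
          _ = _ := by ring
      calc _ ≤ 2 * (2 * (1 / N ^ 3) + C * (A / N ^ 3)) := by gcongr
        _ = _ := by ring
  have : (1 : ℝ) ≤ V.card * (2 * (2 + C * A) / N ^ 3) := by
    calc (1 : ℝ) = μ.real K := by
          rw [← probReal_univ (μ := μ)]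
          exact (measureReal_congr (ae_eq_univ.2 h0)).symm
      _ ≤ μ.real (⋃ a ∈ V, {p | |p.2 - a| ≤ A / N ^ 13}) := measureReal_mono (fun p hp => by
          obtain ⟨a, ha, k⟩ := hX p.1 (hK hp).1
          refine mem_biUnion ha ?_
          rw [mem_ofPred_eq, (hK hp).2]
          exact k.trans (by gcongr; linarith)) (measure_ne_top _ _)
      _ ≤ _ := (measureReal_biUnion_finset_le _ _).trans
          ((Finset.sum_le_card_nsmul _ _ _ fun a _ => f a).trans_eq (nsmul_eq_mul _ _))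
  have k : (1 : ℝ) ≤ (1 + 4 * s) * N ^ 2 * (2 * (2 + C * A) / N ^ 3) := this.trans (by gcongr)
  rw [show (1 + 4 * s) * N ^ 2 * (2 * (2 + C * A) / N ^ 3) = (1 + 4 * s) * (2 * (2 + C * A)) / N by
    field_simp, one_le_div N0] at k
  linarith

end Pool.Agent.H.MP_2c66a4_pr
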